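import Pool.Agent.Helper144.BL.Split

set_option autoImplicit false

/-!
A set of reals which is invariant under dyadic translations and is exchanged with its complement by
the reflection is not measurable.
-/

namespace Pool.Agent.Helper144.BL

open Filter Topology MeasureTheory

/-- The set of the `n` such that the digit of `2 ^ (-n - 1)` in the binary expansion of `r` is
one. -/
def dig (r : ℝ) : Set ℕ := {n | Odd ⌊2 ^ (n + 1) * r⌋}

theorem dig_add_one (r : ℝ) : dig (r + 1) = dig r := by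
  ext n
  have h : (2 : ℝ) ^ (n + 1) * (r + 1) = 2 ^ (n + 1) * r + ((2 ^ (n + 1) : ℤ) : ℝ) := by
    push_cast
    ring
  change Odd ⌊(2 : ℝ) ^ (n + 1) * (r + 1)⌋ ↔ Odd ⌊(2 : ℝ) ^ (n + 1) * r⌋
  rw [h, Int.floor_add_intCast, Int.odd_add]
  have h1 : Even ((2 : ℤ) ^ (n + 1)) := (by decide : Even (2 : ℤ)).pow_of_ne_zero (by omega)
  exact ⟨fun h2 => h2.2 h1, fun h2 => ⟨fun _ => h1, fun _ => h2⟩⟩

theorem dig_add_dyadic (r : ℝ) (m n : ℕ) (h : m ≤ n) :
    n ∈ dig (r + 1 / 2 ^ m) ↔ n ∈ dig r := by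
  obtain ⟨k, rfl⟩ := Nat.exists_eq_add_of_le h
  have h1 : (2 : ℝ) ^ (m + k + 1) * (r + 1 / 2 ^ m) =
      2 ^ (m + k + 1) * r + ((2 ^ (k + 1) : ℤ) : ℝ) := by
    push_cast
    have h2 : (2 : ℝ) ^ m ≠ 0 := by positivity
    field_simp
    ring
  change Odd ⌊(2 : ℝ) ^ (m + k + 1) * (r + 1 / 2 ^ m)⌋ ↔ Odd ⌊(2 : ℝ) ^ (m + k + 1) * r⌋
  rw [h1, Int.floor_add_intCast, Int.odd_add]
  have h2 : Even ((2 : ℤ) ^ (k + 1)) := (by decide : Even (2 : ℤ)).pow_of_ne_zero (by omega)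
  exact ⟨fun h3 => h3.2 h2, fun h3 => ⟨fun _ => h2, fun _ => h3⟩⟩

theorem dig_neg (r : ℝ) (hr : ∀ (n : ℕ) (z : ℤ), (2 : ℝ) ^ (n + 1) * r ≠ z) :
    dig (-r) = (dig r)ᶜ := by
  ext n
  change Odd ⌊(2 : ℝ) ^ (n + 1) * -r⌋ ↔ ¬ Odd ⌊(2 : ℝ) ^ (n + 1) * r⌋
  have h1 : ⌊(2 : ℝ) ^ (n + 1) * -r⌋ = -⌊(2 : ℝ) ^ (n + 1) * r⌋ - 1 := by
    rw [Int.floor_eq_iff]
    have h2 := Int.floor_le ((2 : ℝ) ^ (n + 1) * r)
    have h3 := Int.lt_floor_add_one ((2 : ℝ) ^ (n + 1) * r)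
    have h4 : (⌊(2 : ℝ) ^ (n + 1) * r⌋ : ℝ) < 2 ^ (n + 1) * r :=
      lt_of_le_of_ne h2 fun h => hr n _ h.symm
    push_cast
    constructor <;> linarith
  rw [h1, Int.odd_sub, Int.not_odd_iff_even]
  simp

/-- The reals `r` for which `2 ^ n * r` is an integer for some `n`. -/
def Dy : Set ℝ := {r | ∃ (n : ℕ) (z : ℤ), (2 : ℝ) ^ (n + 1) * r = z}

theorem countable_dy : Dy.Countable := by
  have h : Dy ⊆ ⋃ n : ℕ, Set.range fun z : ℤ => (z : ℝ) / 2 ^ (n + 1) := by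
    rintro r ⟨n, z, h⟩
    refine Set.mem_iUnion.2 ⟨n, z, ?_⟩
    have h2 : (2 : ℝ) ^ (n + 1) ≠ 0 := by positivity
    field_simp
    linarith
  exact (Set.countable_iUnion fun n => Set.countable_range _).mono h

/-- The circle map to the real line. -/
noncomputable def gg (q : AddCircle (1 : ℝ)) : ℝ := (AddCircle.measurableEquivIoc (1 : ℝ) 0 q : ℝ)

theorem mk_gg (q : AddCircle (1 : ℝ)) : ((gg q : ℝ) : AddCircle (1 : ℝ)) = q :=
  (AddCircle.measurableEquivIoc (1 : ℝ) 0).symm_apply_apply q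

theorem gg_mk {r : ℝ} (hr : r ∈ Set.Ioc (0 : ℝ) (0 + 1)) : gg (r : AddCircle (1 : ℝ)) = r := by
  have h : (r : AddCircle (1 : ℝ)) = (AddCircle.measurableEquivIoc (1 : ℝ) 0).symm ⟨r, hr⟩ := rfl
  unfold gg
  rw [h, MeasurableEquiv.apply_symm_apply]

theorem measurable_gg : Measurable gg :=
  measurable_subtype_coe.comp (AddCircle.measurableEquivIoc (1 : ℝ) 0).measurable

theorem quasi_gg : Measure.QuasiMeasurePreserving gg (volume : Measure (AddCircle (1 : ℝ)))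
    (volume : Measure ℝ) := by
  refine ⟨measurable_gg, Measure.AbsolutelyContinuous.mk fun N hN h0 => ?_⟩
  rw [Measure.map_apply measurable_gg hN]
  have h1 := (AddCircle.measurePreserving_mk (1 : ℝ) 0).measure_preimage
    (measurable_gg hN).nullMeasurableSet
  rw [← h1, Measure.restrict_apply' measurableSet_Ioc]
  refine measure_mono_null ?_ h0
  rintro r ⟨hr, hr'⟩
  have h2 : gg (r : AddCircle (1 : ℝ)) ∈ N := hr
  rwa [gg_mk hr'] at h2

theorem contra (A : Set ℝ) (h0 : volume (A ∩ Set.Ioc (0 : ℝ) (0 + 1)) = 0)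
    (h1 : ∀ r : ℝ, r + 1 ∈ A ↔ r ∈ A) (h3 : ∀ r : ℝ, r ∉ Dy → (-r ∈ A ↔ r ∉ A)) : False := by
  have h4 : volume ((fun r : ℝ => 1 - r) ⁻¹' (A ∩ Set.Ioc (0 : ℝ) (0 + 1))) = 0 :=
    (Measure.measurePreserving_sub_left (volume : Measure ℝ) 1).quasiMeasurePreserving.preimage_null h0
  have h5 : volume Dy = 0 := countable_dy.measure_zero _
  have h6 : Set.Ioo (0 : ℝ) 1 ⊆ (A ∩ Set.Ioc (0 : ℝ) (0 + 1)) ∪ Dy ∪
      (fun r : ℝ => 1 - r) ⁻¹' (A ∩ Set.Ioc (0 : ℝ) (0 + 1)) := by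
    rintro r ⟨hr0, hr1⟩
    by_cases hA : r ∈ A
    · exact Or.inl (Or.inl ⟨hA, hr0, by linarith⟩)
    · by_cases hD : r ∈ Dy
      · exact Or.inl (Or.inr hD)
      · right
        have h7 : -r ∈ A := (h3 r hD).2 hA
        have h8 : 1 - r ∈ A := by
          have h9 : 1 - r = -r + 1 := by ring
          rw [h9, h1]
          exact h7
        exact ⟨h8, by linarith, by linarith⟩
  have h7 : volume (Set.Ioo (0 : ℝ) 1) = 0 :=
    measure_mono_null h6 (measure_union_null (measure_union_null h0 h5) h4)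
  rw [Real.volume_Ioo] at h7
  norm_num at h7

theorem not_measurable (E : Set ℝ) (h1 : ∀ r : ℝ, r + 1 ∈ E ↔ r ∈ E)
    (h2 : ∀ (r : ℝ) (m : ℕ), r + 1 / 2 ^ m ∈ E ↔ r ∈ E)
    (h3 : ∀ r : ℝ, r ∉ Dy → (-r ∈ E ↔ r ∉ E)) : ¬ NullMeasurableSet E volume := by
  intro hE
  have hz : ∀ (z : ℤ) (r : ℝ), r + z ∈ E ↔ r ∈ E := by
    intro z
    induction z with
    | zero => intro r; simp
    | succ n ih =>
      intro r
      have h4 : r + ((n + 1 : ℤ) : ℝ) = (r + ((n : ℤ) : ℝ)) + 1 := by push_cast; ring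
      rw [h4, h1, ih]
    | pred n ih =>
      intro r
      rw [← h1]
      have h4 : r + ((-(n : ℤ) - 1 : ℤ) : ℝ) + 1 = r + ((-(n : ℤ) : ℤ) : ℝ) := by push_cast; ring
      rw [h4, ih]
  set s : Set (AddCircle (1 : ℝ)) := gg ⁻¹' E with hs
  have hmem : ∀ r : ℝ, (r : AddCircle (1 : ℝ)) ∈ s ↔ r ∈ E := by
    intro r
    have h4 : ((gg (r : AddCircle (1 : ℝ)) : ℝ) : AddCircle (1 : ℝ)) = r := mk_gg _
    have h5 : ((gg (r : AddCircle (1 : ℝ)) - r : ℝ) : AddCircle (1 : ℝ)) = 0 := by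
      rw [AddCircle.coe_sub, h4, sub_self]
    obtain ⟨z, hz'⟩ := (AddCircle.coe_eq_zero_iff (1 : ℝ)).1 h5
    have h6 : gg (r : AddCircle (1 : ℝ)) = r + z := by
      rw [zsmul_eq_mul, mul_one] at hz'
      linarith
    change gg (r : AddCircle (1 : ℝ)) ∈ E ↔ r ∈ E
    rw [h6, hz]
  have hsm : NullMeasurableSet s volume := hE.preimage quasi_gg
  have hpre : (fun r : ℝ => (r : AddCircle (1 : ℝ))) ⁻¹' s = E := by
    ext r
    exact hmem r
  have hmk := AddCircle.measurePreserving_mk (1 : ℝ) 0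
  rcases AddCircle.ae_empty_or_univ_of_forall_vadd_ae_eq_self (T := (1 : ℝ)) hsm
    (l := atTop) (u := fun i : ℕ => (((1 : ℝ) / ((2 ^ i : ℕ) : ℝ) : ℝ) : AddCircle (1 : ℝ)))
    (fun i => by
      refine Filter.EventuallyEq.of_eq (Set.ext fun q => ?_)
      rw [Set.mem_vadd_set_iff_neg_vadd_mem]
      induction q using QuotientAddGroup.induction_on with
      | H r =>
        have h4 : -(((1 : ℝ) / ((2 ^ i : ℕ) : ℝ) : ℝ) : AddCircle (1 : ℝ)) +ᵥ
            ((r : ℝ) : AddCircle (1 : ℝ)) =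
            ((r - 1 / 2 ^ i : ℝ) : AddCircle (1 : ℝ)) := by
          rw [vadd_eq_add, ← AddCircle.coe_neg, ← AddCircle.coe_add]
          congr 1
          push_cast
          ring
        change _ ∈ s ↔ ((r : ℝ) : AddCircle (1 : ℝ)) ∈ s
        have h5 := h2 (r - 1 / 2 ^ i) i
        rw [sub_add_cancel] at h5
        rw [hmem, h5, ← hmem]
        exact iff_of_eq (congrArg (· ∈ s) h4))
    (by
      have h4 : (addOrderOf ∘ fun i : ℕ =>
          (((1 : ℝ) / ((2 ^ i : ℕ) : ℝ) : ℝ) : AddCircle (1 : ℝ))) = fun i => 2 ^ i := by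
        funext i
        exact AddCircle.addOrderOf_period_div (by positivity)
      rw [h4]
      exact tendsto_pow_atTop_atTop_of_one_lt (by norm_num)) with h | h
  · refine contra E ?_ h1 h3
    have h5 := hmk.measure_preimage hsm
    rw [hpre, Measure.restrict_apply' measurableSet_Ioc, ae_eq_empty.1 h] at h5
    exact h5
  · refine contra Eᶜ ?_ (fun r => not_congr (h1 r)) (fun r hr => ?_)
    · have h5 := hmk.measure_preimage hsm.compl
      rw [Set.preimage_compl, hpre, Measure.restrict_apply' measurableSet_Ioc,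
        ae_eq_univ.1 h] at h5
      exact h5
    · exact not_congr (h3 r hr)

/-- If no union of dyadic blocks has measure one half, then there is a nonmeasurable set. -/
theorem main {L : (ℕ → ℝ) → ℝ} (hL : BanachLimit L) (h : ¬ Splits L) :
    ¬ NullMeasurableSet {r : ℝ | L (bb (dig r)) < 1 / 2} volume := by
  refine not_measurable _ (fun r => ?_) (fun r m => ?_) (fun r hr => ?_)
  · change L (bb (dig (r + 1))) < 1 / 2 ↔ L (bb (dig r)) < 1 / 2
    rw [dig_add_one]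
  · change L (bb (dig (r + 1 / 2 ^ m))) < 1 / 2 ↔ L (bb (dig r)) < 1 / 2
    rw [map_tail hL (m := m) fun k hk => dig_add_dyadic r m k hk]
  · change L (bb (dig (-r))) < 1 / 2 ↔ ¬ L (bb (dig r)) < 1 / 2
    have h1 : dig (-r) = (dig r)ᶜ := dig_neg r fun n z hz => hr ⟨n, z, hz⟩
    have h2 : L (bb (dig r)) ≠ 1 / 2 := fun h3 => h (splits_of_half hL h3)
    rw [h1, map_compl hL, not_lt]
    constructor
    · intro h3
      linarith
    · intro h3
      have h4 := lt_of_le_of_ne h3 h2.symm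
      linarith

end Pool.Agent.Helper144.BL
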