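import Mathlib

set_option autoImplicit false

/-!
Banach limits and unions of dyadic blocks.
-/

namespace Pool.Agent.Helper144.BL

open Filter Topology

/-- The sequence `x` is bounded. -/
def Bounded (x : ℕ → ℝ) : Prop := ∃ C : ℝ, ∀ n, |x n| ≤ C

/-- `L` is a Banach limit: on the bounded sequences it is linear, has norm one, lies between the
limes inferior and the limes superior, and is invariant under the shift. (The values of `L` on
unbounded sequences are irrelevant.) -/
structure BanachLimit (L : (ℕ → ℝ) → ℝ) : Prop where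
  add : ∀ x y, Bounded x → Bounded y → L (fun n => x n + y n) = L x + L y
  smul : ∀ (c : ℝ) (x : ℕ → ℝ), Bounded x → L (fun n => c * x n) = c * L x
  between : ∀ x, Bounded x → liminf x atTop ≤ L x ∧ L x ≤ limsup x atTop
  norm : ∀ (x : ℕ → ℝ) (C : ℝ), (∀ n, |x n| ≤ C) → |L x| ≤ C
  shift : ∀ x, Bounded x → L (fun n => x (n + 1)) = L x

variable {L : (ℕ → ℝ) → ℝ} {x y : ℕ → ℝ}

theorem Bounded.add (hx : Bounded x) (hy : Bounded y) : Bounded fun n => x n + y n := by
  obtain ⟨C, hC⟩ := hx
  obtain ⟨D, hD⟩ := hy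
  exact ⟨C + D, fun n => (abs_add_le _ _).trans (add_le_add (hC n) (hD n))⟩

theorem Bounded.mul (hx : Bounded x) (hy : Bounded y) : Bounded fun n => x n * y n := by
  obtain ⟨C, hC⟩ := hx
  obtain ⟨D, hD⟩ := hy
  refine ⟨C * D, fun n => ?_⟩
  rw [abs_mul]
  exact mul_le_mul (hC n) (hD n) (abs_nonneg _) ((abs_nonneg _).trans (hC n))

theorem bounded_const (c : ℝ) : Bounded fun _ => c := ⟨|c|, fun _ => le_rfl⟩

theorem Bounded.shift (hx : Bounded x) (j : ℕ) : Bounded fun n => x (n + j) := by
  obtain ⟨C, hC⟩ := hx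
  exact ⟨C, fun n => hC _⟩

theorem Bounded.sub (hx : Bounded x) (hy : Bounded y) : Bounded fun n => x n - y n := by
  obtain ⟨C, hC⟩ := hx
  obtain ⟨D, hD⟩ := hy
  exact ⟨C + D, fun n => (abs_sub _ _).trans (add_le_add (hC n) (hD n))⟩

theorem bdd_above (hx : Bounded x) : IsBoundedUnder (· ≤ ·) atTop x := by
  obtain ⟨C, hC⟩ := hx
  exact isBoundedUnder_of ⟨C, fun n => (abs_le.1 (hC n)).2⟩

theorem bdd_below (hx : Bounded x) : IsBoundedUnder (· ≥ ·) atTop x := by
  obtain ⟨C, hC⟩ := hx
  exact isBoundedUnder_of ⟨-C, fun n => (abs_le.1 (hC n)).1⟩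

theorem le_const (hL : BanachLimit L) (hx : Bounded x) {a : ℝ} (h : ∀ᶠ n in atTop, x n ≤ a) :
    L x ≤ a :=
  ((hL.between x hx).2).trans (limsup_le_of_le (bdd_below hx).isCoboundedUnder_le h)

theorem const_le (hL : BanachLimit L) (hx : Bounded x) {a : ℝ} (h : ∀ᶠ n in atTop, a ≤ x n) :
    a ≤ L x :=
  (le_liminf_of_le (bdd_above hx).isCoboundedUnder_ge h).trans (hL.between x hx).1

theorem map_sub (hL : BanachLimit L) (hx : Bounded x) (hy : Bounded y) :
    L (fun n => x n - y n) = L x - L y := by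
  have h1 := hL.smul (-1) y hy
  have h2 := hL.add x (fun n => -1 * y n) hx ((bounded_const (-1)).mul hy)
  have h3 : (fun n => x n - y n) = fun n => x n + -1 * y n := by
    funext n
    ring
  rw [h3, h2, h1]
  ring

theorem mono (hL : BanachLimit L) (hx : Bounded x) (hy : Bounded y)
    (h : ∀ᶠ n in atTop, x n ≤ y n) : L x ≤ L y := by
  have h1 := const_le hL (a := 0) (hy.sub hx) (h.mono fun n hn => by linarith)
  rw [map_sub hL hy hx] at h1
  linarith

theorem map_const (hL : BanachLimit L) (c : ℝ) : L (fun _ => c) = c :=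
  le_antisymm (le_const hL (bounded_const c) (Eventually.of_forall fun _ => le_rfl))
    (const_le hL (bounded_const c) (Eventually.of_forall fun _ => le_rfl))

theorem congr (hL : BanachLimit L) (hx : Bounded x) (hy : Bounded y)
    (h : ∀ᶠ n in atTop, x n = y n) : L x = L y :=
  le_antisymm (mono hL hx hy (h.mono fun _ hn => hn.le)) (mono hL hy hx (h.mono fun _ hn => hn.ge))

theorem map_shift (hL : BanachLimit L) (hx : Bounded x) (j : ℕ) :
    L (fun n => x (n + j)) = L x := by
  induction j with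
  | zero => rfl
  | succ j ih =>
    rw [← ih]
    have h := hL.shift (fun n => x (n + j)) (hx.shift j)
    rw [← h]
    congr 1
    funext n
    congr 1
    omega

theorem abs_le_of (hL : BanachLimit L) (hx : Bounded x) (hy : Bounded y)
    (h : ∀ n, |x n| ≤ y n) : |L x| ≤ L y := by
  rw [abs_le]
  constructor
  · have h1 := mono hL ((bounded_const (-1)).mul hy) hx
      (Eventually.of_forall fun n => by linarith [(abs_le.1 (h n)).1])
    rw [hL.smul _ _ hy] at h1
    linarith
  · exact mono hL hx hy (Eventually.of_forall fun n => (abs_le.1 (h n)).2)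

open Classical in
/-- The indicator function of the ends of the dyadic blocks. -/
noncomputable def dd (n : ℕ) : ℝ := if ∃ k, n + 2 = 2 ^ k then 1 else 0

theorem dd_nonneg (n : ℕ) : 0 ≤ dd n := by
  unfold dd
  split_ifs <;> norm_num

theorem dd_le (n : ℕ) : dd n ≤ 1 := by
  unfold dd
  split_ifs <;> norm_num

theorem bounded_dd : Bounded dd := ⟨1, fun n => by
  rw [abs_of_nonneg (dd_nonneg n)]
  exact dd_le n⟩

theorem sum_dd_le (m n : ℕ) (h : m ≤ n) : ∑ j ∈ Finset.range m, dd (n + j) ≤ 1 := by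
  classical
  have h1 : ∑ j ∈ Finset.range m, dd (n + j) =
      (((Finset.range m).filter fun j => ∃ k, n + j + 2 = 2 ^ k).card : ℝ) := by
    rw [Finset.card_filter]
    push_cast
    refine Finset.sum_congr rfl fun j _ => ?_
    unfold dd
    congr
  rw [h1]
  have h2 : ∀ a b, a < b → b < m → (∃ k, n + a + 2 = 2 ^ k) → (∃ k, n + b + 2 = 2 ^ k) → False := by
    rintro a b hab hb ⟨k, hk⟩ ⟨l, hl⟩
    have h3 : k < l := by
      by_contra h4
      have h5 : 2 ^ l ≤ 2 ^ k := Nat.pow_le_pow_right (by norm_num) (by omega)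
      omega
    have h4 : 2 ^ (k + 1) ≤ 2 ^ l := Nat.pow_le_pow_right (by norm_num) h3
    rw [pow_succ] at h4
    omega
  have h3 : ((Finset.range m).filter fun j => ∃ k, n + j + 2 = 2 ^ k).card ≤ 1 := by
    rw [Finset.card_le_one]
    intro a ha b hb
    simp only [Finset.mem_filter, Finset.mem_range] at ha hb
    rcases lt_trichotomy a b with h | h | h
    · exact (h2 a b h hb.1 ha.2 hb.2).elim
    · exact h
    · exact (h2 b a h ha.1 hb.2 ha.2).elim
  exact_mod_cast h3

theorem bounded_sum (m : ℕ) : Bounded fun n => ∑ j ∈ Finset.range m, dd (n + j) := by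
  induction m with
  | zero => simpa using bounded_const 0
  | succ m ih =>
    simp only [Finset.sum_range_succ]
    exact ih.add (bounded_dd.shift m)

theorem map_dd (hL : BanachLimit L) : L dd = 0 := by
  have h1 : ∀ m : ℕ, L (fun n => ∑ j ∈ Finset.range m, dd (n + j)) = m * L dd := by
    intro m
    induction m with
    | zero => simpa using map_const hL 0
    | succ m ih =>
      simp only [Finset.sum_range_succ]
      rw [hL.add _ _ (bounded_sum m) (bounded_dd.shift m), ih, map_shift hL bounded_dd]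
      push_cast
      ring
  have h2 : ∀ m : ℕ, (m : ℝ) * L dd ≤ 1 := by
    intro m
    rw [← h1 m]
    refine le_const hL (bounded_sum m) ?_
    filter_upwards [eventually_ge_atTop m] with n hn
    exact sum_dd_le m n hn
  have h3 : 0 ≤ L dd := const_le hL bounded_dd (Eventually.of_forall dd_nonneg)
  by_contra h4
  have h5 : 0 < L dd := lt_of_le_of_ne h3 (Ne.symm h4)
  obtain ⟨m, hm⟩ := exists_nat_gt (1 / L dd)
  have h6 := h2 m
  rw [div_lt_iff₀ h5] at hm
  linarith

open Classical in
/-- The indicator function of the union of the dyadic blocks `{n | 2 ^ k ≤ n + 1 < 2 ^ (k + 1)}`,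
`k ∈ S`. -/
noncomputable def bb (S : Set ℕ) (n : ℕ) : ℝ := if Nat.log 2 (n + 1) ∈ S then 1 else 0

theorem bb_nonneg (S : Set ℕ) (n : ℕ) : 0 ≤ bb S n := by
  unfold bb
  split_ifs <;> norm_num

theorem bb_le (S : Set ℕ) (n : ℕ) : bb S n ≤ 1 := by
  unfold bb
  split_ifs <;> norm_num

theorem bounded_bb (S : Set ℕ) : Bounded (bb S) := ⟨1, fun n => by
  rw [abs_of_nonneg (bb_nonneg S n)]
  exact bb_le S n⟩

theorem bb_compl (S : Set ℕ) (n : ℕ) : bb Sᶜ n = 1 - bb S n := by
  unfold bb
  by_cases h : Nat.log 2 (n + 1) ∈ S <;> simp [h]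

theorem bb_shift (S : Set ℕ) (n : ℕ) : |bb S n - bb S (n + 1)| ≤ dd n := by
  by_cases h : Nat.log 2 (n + 1) = Nat.log 2 (n + 2)
  · have h1 : bb S n - bb S (n + 1) = 0 := by
      unfold bb
      have h2 : n + 1 + 1 = n + 2 := rfl
      rw [h2, h]
      ring
    rw [h1, abs_zero]
    exact dd_nonneg n
  · have h1 : dd n = 1 := by
      unfold dd
      refine if_pos ⟨Nat.log 2 (n + 2), ?_⟩
      have h2 : Nat.log 2 (n + 1) < Nat.log 2 (n + 2) :=
        lt_of_le_of_ne (Nat.log_mono_right (by omega)) h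
      have h3 : 2 ^ Nat.log 2 (n + 2) ≤ n + 2 := Nat.pow_log_le_self 2 (by omega)
      have h4 : n + 1 < 2 ^ Nat.log 2 (n + 2) := Nat.lt_pow_of_log_lt (by norm_num) h2
      omega
    rw [h1, abs_le]
    constructor <;> linarith [bb_nonneg S n, bb_le S n, bb_nonneg S (n + 1), bb_le S (n + 1)]

theorem map_compl (hL : BanachLimit L) (S : Set ℕ) : L (bb Sᶜ) = 1 - L (bb S) := by
  have h : bb Sᶜ = fun n => 1 - bb S n := funext (bb_compl S)
  rw [h, map_sub hL (bounded_const 1) (bounded_bb S), map_const hL]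

theorem map_tail (hL : BanachLimit L) {S T : Set ℕ} {m : ℕ} (h : ∀ k ≥ m, k ∈ S ↔ k ∈ T) :
    L (bb S) = L (bb T) := by
  refine congr hL (bounded_bb S) (bounded_bb T) ?_
  filter_upwards [eventually_ge_atTop (2 ^ m)] with n hn
  have h1 : m ≤ Nat.log 2 (n + 1) := Nat.le_log_of_pow_le (by norm_num) (by omega)
  have h2 := h _ h1
  unfold bb
  by_cases hk : Nat.log 2 (n + 1) ∈ S
  · rw [if_pos hk, if_pos (h2.1 hk)]
  · rw [if_neg hk, if_neg fun h3 => hk (h2.2 h3)]

/-- If the blocks in `S` have measure one half, then restricting to them gives a Banach limit. -/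
theorem half (hL : BanachLimit L) {S : Set ℕ} (hS : L (bb S) = 1 / 2) :
    BanachLimit fun y => 2 * L fun n => bb S n * y n := by
  have hb := bounded_bb S
  refine ⟨fun x y hx hy => ?_, fun c x hx => ?_, fun x hx => ⟨?_, ?_⟩, fun x C hC => ?_,
    fun x hx => ?_⟩
  · have h1 : (fun n => bb S n * (x n + y n)) = fun n => bb S n * x n + bb S n * y n := by
      funext n
      ring
    rw [h1, hL.add _ _ (hb.mul hx) (hb.mul hy)]
    ring
  · have h1 : (fun n => bb S n * (c * x n)) = fun n => c * (bb S n * x n) := by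
      funext n
      ring
    rw [h1, hL.smul _ _ (hb.mul hx)]
    ring
  · refine le_of_forall_lt fun a ha => ?_
    obtain ⟨a', ha', ha''⟩ := exists_between ha
    have h1 : ∀ᶠ n in atTop, a' < x n := eventually_lt_of_lt_liminf ha'' (bdd_below hx)
    have h2 := mono hL ((bounded_const a').mul hb) (hb.mul hx) (h1.mono fun n hn => by
      have := mul_le_mul_of_nonneg_left hn.le (bb_nonneg S n)
      linarith)
    rw [hL.smul _ _ hb, hS] at h2
    linarith
  · refine le_of_forall_gt fun a ha => ?_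
    obtain ⟨a', ha', ha''⟩ := exists_between ha
    have h1 : ∀ᶠ n in atTop, x n < a' := eventually_lt_of_limsup_lt ha' (bdd_above hx)
    have h2 := mono hL (hb.mul hx) ((bounded_const a').mul hb) (h1.mono fun n hn => by
      have := mul_le_mul_of_nonneg_left hn.le (bb_nonneg S n)
      linarith)
    rw [hL.smul _ _ hb, hS] at h2
    linarith
  · have hx : Bounded x := ⟨C, hC⟩
    have h1 := abs_le_of hL (hb.mul hx) ((bounded_const C).mul hb) fun n => by
      rw [abs_mul, abs_of_nonneg (bb_nonneg S n)]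
      have := mul_le_mul_of_nonneg_left (hC n) (bb_nonneg S n)
      linarith
    rw [hL.smul _ _ hb, hS] at h1
    rw [abs_mul]
    norm_num
    linarith
  · have h1 := hL.shift _ (hb.mul hx)
    have hx1 : Bounded fun n => x (n + 1) := hx.shift 1
    have h2 : L (fun n => bb S n * x (n + 1)) - L (fun n => bb S (n + 1) * x (n + 1)) = 0 := by
      rw [← map_sub hL (hb.mul hx1) ((hb.shift 1).mul hx1)]
      obtain ⟨C, hC⟩ := hx
      have h3 := abs_le_of hL ((hb.mul hx1).sub ((hb.shift 1).mul hx1))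
        ((bounded_const C).mul bounded_dd) fun n => by
        have h4 : bb S n * x (n + 1) - bb S (n + 1) * x (n + 1) =
            (bb S n - bb S (n + 1)) * x (n + 1) := by ring
        rw [h4, abs_mul, mul_comm C]
        exact mul_le_mul (bb_shift S n) (hC _) (abs_nonneg _) (dd_nonneg n)
      rw [hL.smul _ _ bounded_dd, map_dd hL, mul_zero] at h3
      exact abs_nonpos_iff.1 h3
    linarith

/-- `L` is the midpoint of two Banach limits which are separated by a set. -/
def Splits (L : (ℕ → ℝ) → ℝ) : Prop :=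
  ∃ (L₁ L₂ : (ℕ → ℝ) → ℝ) (E : Set ℕ), BanachLimit L₁ ∧ BanachLimit L₂ ∧
    (∀ x, Bounded x → L x = (L₁ x + L₂ x) / 2) ∧
    L₁ (E.indicator fun _ => 1) = 1 ∧ L₂ (E.indicator fun _ => 1) = 0

theorem splits_of_half (hL : BanachLimit L) {S : Set ℕ} (hS : L (bb S) = 1 / 2) : Splits L := by
  classical
  have hS' : L (bb Sᶜ) = 1 / 2 := by
    rw [map_compl hL, hS]
    norm_num
  have hb := bounded_bb S
  have hb' := bounded_bb Sᶜ
  have hE : ({n | Nat.log 2 (n + 1) ∈ S} : Set ℕ).indicator (fun _ => (1 : ℝ)) = bb S := by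
    funext n
    unfold bb
    by_cases h : Nat.log 2 (n + 1) ∈ S <;> simp [h]
  refine ⟨_, _, {n | Nat.log 2 (n + 1) ∈ S}, half hL hS, half hL hS', fun x hx => ?_, ?_, ?_⟩
  · have h1 := hL.add _ _ (hb.mul hx) (hb'.mul hx)
    have h2 : (fun n => bb S n * x n + bb Sᶜ n * x n) = x := by
      funext n
      rw [bb_compl]
      ring
    rw [h2] at h1
    linarith
  · rw [hE]
    have h1 : (fun n => bb S n * bb S n) = bb S := by
      funext n
      unfold bb
      split_ifs <;> norm_num
    simp only [h1, hS]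
    norm_num
  · rw [hE]
    have h1 : (fun n => bb Sᶜ n * bb S n) = fun _ => 0 := by
      funext n
      rw [bb_compl]
      unfold bb
      split_ifs <;> norm_num
    simp only [h1, map_const hL, mul_zero]

end Pool.Agent.Helper144.BL
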